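import Mathlib

/-!
# The area mean value inequality for the square of an analytic function
-/

set_option autoImplicit false

open Complex MeasureTheory Set Filter Topology Metric

namespace Pool.Agent.H23.GLA

theorem polar_intOn {F : ℂ → ℝ} (hF : Integrable F) :
    IntegrableOn (fun p : ℝ × ℝ => p.1 * F (Complex.polarCoord.symm p)) polarCoord.target := by
  have h1 : Integrable (fun q : ℝ × ℝ => F (Complex.measurableEquivRealProd.symm q)) :=
    (Complex.volume_preserving_equiv_real_prod.symm).integrable_comp_of_integrable hF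
  have h2 : IntegrableOn (fun q : ℝ × ℝ => F (Complex.measurableEquivRealProd.symm q))
      (polarCoord.symm '' polarCoord.target) := h1.integrableOn
  rw [integrableOn_image_iff_integrableOn_abs_det_fderiv_smul volume
    polarCoord.open_target.measurableSet
    (fun p _ => (hasFDerivAt_polarCoord_symm p).hasFDerivWithinAt) polarCoord.symm.injOn] at h2
  refine h2.congr_fun (fun p hp => ?_) polarCoord.open_target.measurableSet
  have h3 : 0 < p.1 := hp.1
  simp only [det_fderivPolarCoordSymm, abs_of_pos h3, smul_eq_mul]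
  rfl

theorem int_ball_eq (f : ℂ → ℝ) (c : ℂ) (r : ℝ) (hr : 0 < r) (hf : IntegrableOn f (ball c r)) :
    ∫ w in ball c r, f w = ∫ ρ in (0 : ℝ)..r, 2 * Real.pi * (ρ * Real.circleAverage f c ρ) := by
  let F : ℂ → ℝ := fun z => (ball c r).indicator f (c + z)
  have hF : Integrable F := by
    have h1 : Integrable ((ball c r).indicator f) := (integrable_indicator_iff measurableSet_ball).2 hf
    exact h1.comp_add_left c
  have e1 : ∫ w in ball c r, f w = ∫ z, F z := by
    rw [← integral_indicator measurableSet_ball]
    exact (integral_add_left_eq_self (fun w => (ball c r).indicator f w) c).symm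
  have hval : ∀ ρ θ : ℝ, 0 < ρ → F (Complex.polarCoord.symm (ρ, θ)) =
      if ρ < r then f (circleMap c ρ θ) else 0 := by
    intro ρ θ hρ
    have h2 : c + Complex.polarCoord.symm (ρ, θ) = circleMap c ρ θ := by
      rw [Complex.polarCoord_symm_apply, circleMap, Complex.exp_mul_I]
      push_cast
      rfl
    show (ball c r).indicator f (c + Complex.polarCoord.symm (ρ, θ)) = _
    rw [h2]
    by_cases h : ρ < r
    · rw [if_pos h, indicator_of_mem]
      rw [mem_ball, dist_eq_norm, circleMap_sub_center, norm_circleMap_zero, abs_of_pos hρ]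
      exact h
    · rw [if_neg h, indicator_of_notMem]
      rw [mem_ball, dist_eq_norm, circleMap_sub_center, norm_circleMap_zero, abs_of_pos hρ]
      exact h
  have hinner : ∀ ρ : ℝ, 0 < ρ → ∫ θ in Ioo (-Real.pi) Real.pi,
      ρ * F (Complex.polarCoord.symm (ρ, θ)) =
      (Iio r).indicator (fun ρ => 2 * Real.pi * (ρ * Real.circleAverage f c ρ)) ρ := by
    intro ρ hρ
    simp only [hval ρ _ hρ]
    by_cases h : ρ < r
    · simp only [if_pos h]
      rw [indicator_of_mem (show ρ ∈ Iio r from h), Real.circleAverage_eq_integral_add (-Real.pi),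
        integral_const_mul, ← integral_Ioc_eq_integral_Ioo,
        ← intervalIntegral.integral_of_le (by linarith [Real.pi_pos])]
      have h3 := intervalIntegral.integral_comp_add_right (a := 0) (b := 2 * Real.pi)
        (fun θ => f (circleMap c ρ θ)) (-Real.pi)
      rw [h3, smul_eq_mul]
      have h4 : (0 : ℝ) + -Real.pi = -Real.pi := by ring
      have h5 : 2 * Real.pi + -Real.pi = Real.pi := by ring
      rw [h4, h5]
      field_simp
    · simp only [if_neg h]
      rw [indicator_of_notMem (show ρ ∉ Iio r from h)]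
      simp
  rw [e1, ← Complex.integral_comp_polarCoord_symm]
  have h1 := polar_intOn hF
  have h2 : polarCoord.target = Ioi (0 : ℝ) ×ˢ Ioo (-Real.pi) Real.pi := rfl
  rw [h2] at h1 ⊢
  simp only [smul_eq_mul]
  rw [Measure.volume_eq_prod] at h1 ⊢
  rw [setIntegral_prod _ h1, setIntegral_congr_fun measurableSet_Ioi fun ρ hρ => hinner ρ hρ,
    setIntegral_indicator measurableSet_Iio, intervalIntegral.integral_of_le hr.le,
    integral_Ioc_eq_integral_Ioo]
  rfl

/-- for `f` differentiable at all points of the closed disc, `π r² |f(c)|² ≤ ∫ |f|²` -/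
theorem area_le {f : ℂ → ℂ} {c : ℂ} {r : ℝ} (hr : 0 < r)
    (hf : ∀ z ∈ closedBall c r, DifferentiableAt ℂ f z) :
    Real.pi * r ^ 2 * ‖f c‖ ^ 2 ≤ ∫ w in ball c r, ‖f w‖ ^ 2 := by
  have hc : ContinuousOn (fun w => ‖f w‖ ^ 2) (closedBall c r) := fun z hz =>
    ((hf z hz).continuousAt.norm.pow 2).continuousWithinAt
  have hI : IntegrableOn (fun w => ‖f w‖ ^ 2) (ball c r) :=
    (hc.integrableOn_compact (isCompact_closedBall c r)).mono_set ball_subset_closedBall
  rw [int_ball_eq _ c r hr hI]
  have hsph : ∀ ρ : ℝ, 0 ≤ ρ → ρ ≤ r → closedBall c |ρ| ⊆ closedBall c r := by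
    intro ρ h0 h1
    rw [abs_of_nonneg h0]
    exact closedBall_subset_closedBall h1
  have hav : ∀ ρ : ℝ, 0 ≤ ρ → ρ ≤ r →
      ‖f c‖ ^ 2 ≤ Real.circleAverage (fun w => ‖f w‖ ^ 2) c ρ := by
    intro ρ h0 h1
    have hd : DiffContOnCl ℂ (fun z => f z ^ 2) (ball c |ρ|) := by
      apply DifferentiableOn.diffContOnCl
      intro z hz
      have hz' : z ∈ closedBall c r := by
        apply hsph ρ h0 h1
        exact closure_ball_subset_closedBall hz
      exact ((hf z hz').pow 2).differentiableWithinAt
    have h2 := hd.circleAverage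
    rw [← norm_pow, ← h2]
    rw [Real.circleAverage_def, Real.circleAverage_def, norm_smul, smul_eq_mul]
    have hpos : (0 : ℝ) ≤ (2 * Real.pi)⁻¹ := by positivity
    rw [Real.norm_of_nonneg hpos]
    apply mul_le_mul_of_nonneg_left _ hpos
    refine (intervalIntegral.norm_integral_le_integral_norm (by positivity)).trans (le_of_eq ?_)
    simp only [norm_pow]
  have hint : IntervalIntegrable (fun ρ => 2 * Real.pi * (ρ * Real.circleAverage
      (fun w => ‖f w‖ ^ 2) c ρ)) volume 0 r := by
    -- continuity of the circle average in the radius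
    have h3 : ContinuousOn (fun ρ => Real.circleAverage (fun w => ‖f w‖ ^ 2) c ρ) (Icc 0 r) := by
      have hk : ∀ ρ θ : ℝ, circleMap c (max 0 (min r ρ)) θ ∈ closedBall c r := by
        intro ρ θ
        have := circleMap_mem_closedBall c (le_max_left 0 (min r ρ)) θ
        exact closedBall_subset_closedBall (max_le hr.le (min_le_left _ _)) this
      have h4 : Continuous (fun p : ℝ × ℝ => ‖f (circleMap c (max 0 (min r p.1)) p.2)‖ ^ 2) := by
        rw [continuous_iff_continuousAt]
        rintro ⟨ρ, θ⟩
        have h6 : ContinuousAt f (circleMap c (max 0 (min r ρ)) θ) := (hf _ (hk ρ θ)).continuousAt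
        have h7 : ContinuousAt (fun p : ℝ × ℝ => circleMap c (max 0 (min r p.1)) p.2) (ρ, θ) := by
          apply Continuous.continuousAt
          unfold circleMap
          fun_prop
        exact (ContinuousAt.comp (f := fun p : ℝ × ℝ => circleMap c (max 0 (min r p.1)) p.2)
          (x := (ρ, θ)) h6 h7).norm.pow 2
      have h5 : Continuous (fun ρ : ℝ => (2 * Real.pi)⁻¹ * ∫ θ in (0 : ℝ)..2 * Real.pi,
          ‖f (circleMap c (max 0 (min r ρ)) θ)‖ ^ 2) := by
        apply Continuous.mul continuous_const
        apply intervalIntegral.continuous_parametric_intervalIntegral_of_continuous' h4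
      apply h5.continuousOn.congr
      intro ρ hρ
      have h8 : max 0 (min r ρ) = ρ := by
        rw [min_eq_right hρ.2, max_eq_right hρ.1]
      simp only [Real.circleAverage_def, h8, smul_eq_mul]
    have h4 : ContinuousOn (fun ρ => 2 * Real.pi * (ρ * Real.circleAverage
      (fun w => ‖f w‖ ^ 2) c ρ)) (Icc 0 r) := by
      exact continuousOn_const.mul (continuousOn_id.mul h3)
    apply ContinuousOn.intervalIntegrable
    rwa [uIcc_of_le hr.le]
  have h5 : Real.pi * r ^ 2 * ‖f c‖ ^ 2 = ∫ ρ in (0 : ℝ)..r, 2 * Real.pi * (ρ * ‖f c‖ ^ 2) := by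
    rw [intervalIntegral.integral_const_mul, intervalIntegral.integral_mul_const, integral_id]
    ring
  rw [h5]
  apply intervalIntegral.integral_mono_on hr.le _ hint
  · intro ρ hρ
    have := hav ρ hρ.1 hρ.2
    have h6 := hρ.1
    gcongr
  · apply Continuous.intervalIntegrable
    fun_prop

end Pool.Agent.H23.GLA
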