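import Pool.Agent.H77.GLA.SE
import Pool.Agent.H94.GLA.BE
import Pool.Agent.H66.HK.FD

/-!
# (A1) the mean value of the Epstein zeta function
-/

set_option autoImplicit false

open NumberField NumberField.InfinitePlace NumberField.Units
  NumberField.Units.dirichletUnitTheorem MeasureTheory Set Filter Complex
open scoped nonZeroDivisors ENNReal

namespace Pool.Agent.H23.GLA

open Pool.Agent.H25.HK Pool.Agent.H23.LB

section NF

variable {K : Type} [Field K] [NumberField K]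

open scoped Classical in
/-- Tonelli -/
lemma int_AK (hFP : T_FP) (M : FI K) (hM : M ≠ 0) (κ : ℝ) (hκ : 0 < κ) :
    ∫ z in Fd K, AK K κ M z =
      ∫ T in Ioi (0 : ℝ), (ff K M (T / cv K M) - volume.real (Fd K)) * T ^ κ := by
  obtain ⟨h1, h2, h3, h4, h5, h6⟩ := hFP K M hM
  obtain ⟨h7, h8, h9⟩ := h6 κ hκ
  obtain ⟨hm, ⟨B, hB⟩, -, hfin, -⟩ := Pool.Agent.H66.HK.fd K
  have hcont : ContinuousOn (fun p : logSpace K × ℝ => (FT K M p.1 p.2 - 1) * p.2 ^ κ)
      (univ ×ˢ Ioi 0) := by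
    have h10 : ContinuousOn (fun p : logSpace K × ℝ => FT K M p.1 p.2) (univ ×ˢ Ioi 0) :=
      h1.comp (f := fun p : logSpace K × ℝ => (p.2, p.1)) (by fun_prop)
        (fun p hp => ⟨hp.2, trivial⟩)
    refine (h10.sub continuousOn_const).mul ?_
    exact ContinuousOn.rpow_const (by fun_prop) fun p hp => Or.inl (ne_of_gt hp.2)
  have hAE : AEStronglyMeasurable (fun p : logSpace K × ℝ => (FT K M p.1 p.2 - 1) * p.2 ^ κ)
      ((volume.restrict (Fd K)).prod (volume.restrict (Ioi 0))) := by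
    rw [Measure.prod_restrict]
    exact (hcont.mono (prod_mono (subset_univ _) subset_rfl)).aestronglyMeasurable
      (hm.prod measurableSet_Ioi)
  have hnn : ∀ z : logSpace K, ∀ T : ℝ, 0 < T → 0 ≤ (FT K M z T - 1) * T ^ κ := fun z T hT =>
    mul_nonneg (sub_nonneg.2 (h3 z T hT).1) (Real.rpow_nonneg hT.le _)
  have hInt : Integrable (fun p : logSpace K × ℝ => (FT K M p.1 p.2 - 1) * p.2 ^ κ)
      ((volume.restrict (Fd K)).prod (volume.restrict (Ioi 0))) := by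
    rw [integrable_prod_iff hAE]
    refine ⟨Filter.Eventually.of_forall fun z => h9 z, ?_⟩
    have h10 : ∀ z, ∫ T in Ioi (0 : ℝ), ‖(FT K M z T - 1) * T ^ κ‖ = AK K κ M z := by
      intro z
      rw [AK]
      refine setIntegral_congr_fun measurableSet_Ioi fun T hT => ?_
      exact Real.norm_of_nonneg (hnn z T hT)
    simp only [h10]
    have h11 := Pool.Agent.H94.GLA.int_on (fun z => (AK K κ M z : ℂ))
      (Complex.continuous_ofReal.comp h7)
    have h12 := h11.re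
    simpa using h12
  have h13 : ∫ z in Fd K, AK K κ M z =
      ∫ z in Fd K, ∫ T in Ioi (0 : ℝ), (FT K M z T - 1) * T ^ κ := rfl
  rw [h13, integral_integral_swap hInt]
  refine setIntegral_congr_fun measurableSet_Ioi fun T hT => ?_
  show ∫ z in Fd K, (FT K M z T - 1) * T ^ κ = _
  rw [integral_mul_const]
  congr 1
  have hc : Continuous (fun z : logSpace K => FT K M z T) := by
    rw [← continuousOn_univ]
    exact h1.comp (f := fun z : logSpace K => (T, z)) (by fun_prop) (fun z _ => ⟨hT, trivial⟩)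
  have h14 : IntegrableOn (fun z : logSpace K => FT K M z T) (Fd K) := by
    have h11 := Pool.Agent.H94.GLA.int_on (fun z => (FT K M z T : ℂ))
      (Complex.continuous_ofReal.comp hc)
    have h12 : Integrable (fun z : logSpace K => FT K M z T) (volume.restrict (Fd K)) := by
      simpa using h11.re
    exact h12
  rw [integral_sub h14 (integrableOn_const hfin.ne)]
  rw [setIntegral_const, smul_eq_mul, mul_one]
  rfl

open scoped Classical in
/-- the zeta function of an ideal class -/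
noncomputable def zc (M : FI K) (σ : ℝ) : ℝ :=
  ∑' I : {I : Ideal (𝓞 K) // Pri K M I}, (Ideal.absNorm I.1 : ℝ) ^ (-σ)

lemma zc_nonneg (M : FI K) (σ : ℝ) : 0 ≤ zc M σ := tsum_nonneg fun _ => by positivity

open scoped Classical in
lemma int_AK2 (hFP : T_FP) (hME : T_ME) (M : FI K) (hM : M ≠ 0) (κ : ℝ) (hκ : 0 < κ) :
    ∫ z in Fd K, AK K κ M z =
      cw K * |(discr K : ℝ)| ^ ((1 + κ) / 2) * ‖gK K ((1 + κ : ℝ) : ℂ)‖ * zc M (1 + κ) := by
  have hN : 0 < (FractionalIdeal.absNorm M : ℝ) := by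
    have h1 : FractionalIdeal.absNorm M ≠ 0 := by
      rw [Ne, FractionalIdeal.absNorm_eq_zero_iff]
      exact hM
    have h2 : 0 ≤ FractionalIdeal.absNorm M := FractionalIdeal.absNorm_nonneg M
    exact_mod_cast lt_of_le_of_ne h2 (Ne.symm h1)
  have hd : 0 < |(discr K : ℝ)| := by
    have h : discr K ≠ 0 := discr_ne_zero K
    positivity
  have hcv : 0 < cv K M := by
    unfold cv
    positivity
  have h0 : 0 ≤ ∫ z in Fd K, AK K κ M z := by
    apply setIntegral_nonneg (Pool.Agent.H66.HK.fd K).1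
    intro z _
    apply setIntegral_nonneg measurableSet_Ioi
    intro T hT
    exact mul_nonneg (sub_nonneg.2 ((hFP K M hM).2.2.1 z T hT).1) (Real.rpow_nonneg (le_of_lt hT) _)
  rw [← abs_of_nonneg h0, int_AK hFP M hM κ hκ]
  have h1 : ∫ T in Ioi (0 : ℝ), (ff K M (T / cv K M) - volume.real (Fd K)) * T ^ κ =
      cv K M ^ (1 + κ) * ∫ t in Ioi (0 : ℝ), (ff K M t - volume.real (Fd K)) * t ^ κ := by
    have h2 := integral_comp_mul_left_Ioi
      (fun T => (ff K M (T / cv K M) - volume.real (Fd K)) * T ^ κ) 0 hcv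
    rw [mul_zero] at h2
    rw [eq_comm, inv_smul_eq_iff₀ hcv.ne'] at h2
    have h2' : ∫ t in Ioi (0 : ℝ), (ff K M (cv K M * t / cv K M) - volume.real (Fd K)) *
        (cv K M * t) ^ κ =
        ∫ t in Ioi (0 : ℝ), cv K M ^ κ * ((ff K M t - volume.real (Fd K)) * t ^ κ) := by
      refine setIntegral_congr_fun measurableSet_Ioi fun t ht => ?_
      have ht' : (0 : ℝ) < t := ht
      show (ff K M (cv K M * t / cv K M) - volume.real (Fd K)) * (cv K M * t) ^ κ = _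
      rw [mul_div_cancel_left₀ _ hcv.ne', Real.mul_rpow hcv.le ht'.le]
      ring
    rw [h2, smul_eq_mul, h2', integral_const_mul, Real.rpow_add hcv, Real.rpow_one]
    ring
  have h3 : ((∫ t in Ioi (0 : ℝ), (ff K M t - volume.real (Fd K)) * t ^ κ : ℝ) : ℂ) =
      mellin (fun t => (ff K M t : ℂ) - (volume.real (Fd K) : ℝ)) ((1 + κ : ℝ) : ℂ) := by
    rw [mellin]
    refine (integral_ofReal (𝕜 := ℂ) (f := fun t : ℝ =>
      (ff K M t - volume.real (Fd K)) * t ^ κ)).symm.trans ?_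
    refine setIntegral_congr_fun measurableSet_Ioi fun t ht => ?_
    have ht' : (0 : ℝ) < t := ht
    have h4 : (((1 + κ : ℝ) : ℂ) - 1) = ((κ : ℝ) : ℂ) := by
      push_cast
      ring
    simp only [smul_eq_mul]
    rw [h4, ← Complex.ofReal_cpow ht'.le]
    simp only [RCLike.ofReal_mul, RCLike.ofReal_sub, Complex.coe_algebraMap]
    ring
  rw [hME K M hM ((1 + κ : ℝ) : ℂ) (by simpa using hκ)] at h3
  have h5 := congrArg (fun z : ℂ => ‖z‖) h3
  simp only [Complex.norm_real, norm_mul, norm_inv, norm_pow] at h5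
  have h6 : ‖∑' I : {I : Ideal (𝓞 K) // Pri K M I}, (Ideal.absNorm I.1 : ℂ) ^
      (-((1 + κ : ℝ) : ℂ))‖ = zc M (1 + κ) := by
    have h7 : (∑' I : {I : Ideal (𝓞 K) // Pri K M I}, (Ideal.absNorm I.1 : ℂ) ^
        (-((1 + κ : ℝ) : ℂ))) = ((zc M (1 + κ) : ℝ) : ℂ) := by
      rw [zc, Complex.ofReal_tsum]
      refine tsum_congr fun I => ?_
      rw [Complex.ofReal_cpow (by positivity)]
      simp
    rw [h7, Complex.norm_real, Real.norm_of_nonneg (zc_nonneg M _)]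
  have h8 : ‖((FractionalIdeal.absNorm M : ℝ) : ℂ) ^ (-((1 + κ : ℝ) : ℂ))‖ =
      (FractionalIdeal.absNorm M : ℝ) ^ (-(1 + κ)) := by
    rw [Complex.norm_cpow_eq_rpow_re_of_pos hN]
    simp
  rw [h6, h8] at h5
  rw [h1, abs_mul, abs_of_nonneg (Real.rpow_nonneg hcv.le _), ← Real.norm_eq_abs, h5]
  have h9 : cv K M ^ (1 + κ) = |(discr K : ℝ)| ^ ((1 + κ) / 2) *
      (FractionalIdeal.absNorm M : ℝ) ^ (1 + κ) := by
    rw [cv, Real.mul_rpow (Real.sqrt_nonneg _) hN.le, Real.sqrt_eq_rpow, ← Real.rpow_mul hd.le]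
    congr 2
    ring
  have h10 : (FractionalIdeal.absNorm M : ℝ) ^ (1 + κ) *
      (FractionalIdeal.absNorm M : ℝ) ^ (-(1 + κ)) = 1 := by
    rw [← Real.rpow_add hN]
    simp
  rw [h9]
  have h11 : ‖(torsionOrder K : ℂ)‖ = (torsionOrder K : ℝ) := by simp
  have h12 : ‖(2 : ℂ)‖ = 2 := by simp
  rw [h11, h12, cw]
  calc _ = ↑(torsionOrder K) * (2 ^ (nrRealPlaces K + nrComplexPlaces K))⁻¹ *
        |(discr K : ℝ)| ^ ((1 + κ) / 2) * ‖gK K ((1 + κ : ℝ) : ℂ)‖ * zc M (1 + κ) *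
        ((FractionalIdeal.absNorm M : ℝ) ^ (1 + κ) *
          (FractionalIdeal.absNorm M : ℝ) ^ (-(1 + κ))) := by ring
    _ = _ := by rw [h10, mul_one]

/-- the sum over the classes -/
lemma sum_zc {ι : Type} [Fintype ι] (M : ι → FI K) (hM : Reps K M) (σ : ℝ) (hσ : 1 < σ) :
    ∑ c, zc (M c) σ = ∑' I : {I : Ideal (𝓞 K) // I ≠ ⊥}, (Ideal.absNorm I.1 : ℝ) ^ (-σ) := by
  classical
  have hs := Pool.Agent.H77.GLA.summable_real K σ hσ
  let e : (Σ c : ι, {I : Ideal (𝓞 K) // Pri K (M c) I}) ≃ {I : Ideal (𝓞 K) // I ≠ ⊥} :=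
    Equiv.ofBijective (fun p => ⟨p.2.1, p.2.2.1⟩) (by
      constructor
      · rintro ⟨c, I, hI⟩ ⟨c', I', hI'⟩ h
        have h1 : I = I' := congrArg Subtype.val h
        subst h1
        have h2 : c = c' := (hM.2 I hI.1).unique hI hI'
        subst h2
        rfl
      · rintro ⟨I, hI⟩
        obtain ⟨c, hc, -⟩ := hM.2 I hI
        exact ⟨⟨c, I, hc⟩, rfl⟩)
  rw [← e.tsum_eq]
  have hs' : Summable (fun p : Σ c : ι, {I : Ideal (𝓞 K) // Pri K (M c) I} =>
      (Ideal.absNorm (e p).1 : ℝ) ^ (-σ)) := e.summable_iff.2 hs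
  rw [hs'.tsum_sigma, tsum_fintype]
  rfl

open scoped Classical in
/-- the exact mean value -/
theorem mean_AK (hFP : T_FP) (hME : T_ME) {ι : Type} [Fintype ι] (M : ι → FI K)
    (hM : Reps K M) (κ : ℝ) (hκ : 0 < κ) :
    ∑ c, ∫ z in Fd K, AK K κ (M c) z = cw K * |(discr K : ℝ)| ^ ((1 + κ) / 2) *
      ‖gK K ((1 + κ : ℝ) : ℂ)‖ *
        ∑' I : {I : Ideal (𝓞 K) // I ≠ ⊥}, (Ideal.absNorm I.1 : ℝ) ^ (-(1 + κ)) := by
  rw [← sum_zc M hM (1 + κ) (by linarith), Finset.mul_sum]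
  exact Finset.sum_congr rfl fun c _ => int_AK2 hFP hME (M c) (hM.1 c) κ hκ

open scoped Classical in
/-- the mean value at the inverse lattices -/
theorem mean_neg (hFP : T_FP) (M : FI K) (hM : M ≠ 0) (κ : ℝ) (hκ : 0 < κ) :
    ∫ z in Fd K, AK K κ M (-z) = ∫ z in Fd K, AK K κ M z := by
  obtain ⟨-, -, -, -, -, h6⟩ := hFP K M hM
  exact (Pool.Agent.H66.HK.fd K).2.2.2.2.2.2 (AK K κ M) (h6 κ hκ).2.1

lemma gK_le (n : ℕ) (hn : Module.finrank ℚ K = n) (s : ℂ) :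
    ‖gK K s‖ ≤ (max 1 ‖Gammaℝ s‖) ^ n * (max 1 ‖Gammaℂ s‖) ^ n := by
  have h := card_add_two_mul_card_eq_rank K
  have h1 : nrRealPlaces K ≤ n := by omega
  have h2 : nrComplexPlaces K ≤ n := by omega
  rw [gK, norm_mul, norm_pow, norm_pow]
  have h3 : ‖Gammaℝ s‖ ^ nrRealPlaces K ≤ (max 1 ‖Gammaℝ s‖) ^ n :=
    (pow_le_pow_left₀ (norm_nonneg _) (le_max_right _ _) _).trans
      (pow_le_pow_right₀ (le_max_left _ _) h1)
  have h4 : ‖Gammaℂ s‖ ^ nrComplexPlaces K ≤ (max 1 ‖Gammaℂ s‖) ^ n :=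
    (pow_le_pow_left₀ (norm_nonneg _) (le_max_right _ _) _).trans
      (pow_le_pow_right₀ (le_max_left _ _) h2)
  gcongr

end NF

open scoped Classical in
theorem pf_A1 (hFP : T_FP) (hME : T_ME) : T_A1 := by
  intro n κ hκ
  obtain ⟨C, hC⟩ := Pool.Agent.H77.GLA.pf_SE.2.1 n (1 + κ) (by linarith)
  set G : ℝ := (max 1 ‖Gammaℝ ((1 + κ : ℝ) : ℂ)‖) ^ n * (max 1 ‖Gammaℂ ((1 + κ : ℝ) : ℂ)‖) ^ n
    with hG
  have hG0 : 0 ≤ G := by positivity
  refine ⟨G * max C 0, ?_⟩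
  intro K _ _ hn ι _ M hM
  have hcw : 0 ≤ cw K := by unfold cw; positivity
  have h1 : ∑ c, ∫ z in Fd K, AK K κ (M c) z ≤
      G * max C 0 * cw K * |(discr K : ℝ)| ^ ((1 + κ) / 2) := by
    rw [mean_AK hFP hME M hM κ hκ]
    have h2 := gK_le n hn ((1 + κ : ℝ) : ℂ)
    have h3 := (hC K hn).trans (le_max_left C 0)
    have h4 : (0 : ℝ) ≤ ∑' I : {I : Ideal (𝓞 K) // I ≠ ⊥},
        (Ideal.absNorm I.1 : ℝ) ^ (-(1 + κ)) := tsum_nonneg fun _ => by positivity
    calc cw K * |(discr K : ℝ)| ^ ((1 + κ) / 2) * ‖gK K ((1 + κ : ℝ) : ℂ)‖ *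
        ∑' I : {I : Ideal (𝓞 K) // I ≠ ⊥}, (Ideal.absNorm I.1 : ℝ) ^ (-(1 + κ))
        ≤ cw K * |(discr K : ℝ)| ^ ((1 + κ) / 2) * G * max C 0 := by gcongr
      _ = _ := by ring
  refine ⟨h1, ?_⟩
  have h5 : ∀ c, ∫ z in Fd K, AK K κ (M c) (-z) = ∫ z in Fd K, AK K κ (M c) z := fun c =>
    mean_neg hFP (M c) (hM.1 c) κ hκ
  simp only [h5]
  exact h1

end Pool.Agent.H23.GLA
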