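import Pool.Agent.H23.LB.Targets

/-!
# (GD) the Gamma factor
-/

set_option autoImplicit false

open NumberField NumberField.InfinitePlace Complex Set

namespace Pool.Agent.H23.GLA

open Pool.Agent.H25.HK Pool.Agent.H23.LB
open Pool.Agent.H28.RC hiding gS cf

open scoped Classical in
theorem pf_GD : T_GD := by
  intro K _ _ S ν
  have hC : ∀ s : ℂ, (Gammaℂ s)⁻¹ = (Gammaℝ s)⁻¹ * (Gammaℝ (s + 1))⁻¹ := fun s => by
    rw [← Gammaℝ_mul_Gammaℝ_add_one, mul_inv]
  have hne : ∀ (ν : InfinitePlace K → ℝ) (s : ℂ), 0 < s.re → gS K S ν s ≠ 0 := by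
    intro ν s hs
    unfold LB.gS
    refine Finset.prod_ne_zero_iff.2 fun v _ => ?_
    split_ifs with h1 h2
    · refine Gammaℝ_ne_zero_of_re_pos ?_
      simp
      linarith
    · refine Gammaℝ_ne_zero_of_re_pos ?_
      simpa using hs
    · have h3 : 0 < (s - ν v * I).re := by simpa using hs
      rw [← Gammaℝ_mul_Gammaℝ_add_one]
      refine mul_ne_zero (Gammaℝ_ne_zero_of_re_pos h3) (Gammaℝ_ne_zero_of_re_pos ?_)
      rw [add_re, one_re]
      linarith
  refine ⟨?_, hne ν, ?_⟩
  · unfold LB.gS
    simp only [← Finset.prod_inv_distrib]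
    refine Differentiable.fun_finsetProd fun v _ => ?_
    by_cases h : v.IsReal
    · simp only [h, dif_pos]
      exact differentiable_Gammaℝ_inv.comp ((differentiable_id.add_const _).sub_const _)
    · simp only [h, dif_neg, not_false_eq_true, hC]
      exact (differentiable_Gammaℝ_inv.comp (differentiable_id.sub_const _)).mul
        (differentiable_Gammaℝ_inv.comp ((differentiable_id.sub_const _).add_const _))
  · intro σ R hσ
    have hcont : ContinuousOn (fun ν' : InfinitePlace K → ℝ => ‖(gS K S ν' (σ : ℂ))⁻¹‖)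
        (Set.univ) := by
      refine ContinuousOn.norm ?_
      rw [continuousOn_univ]
      unfold LB.gS
      simp only [← Finset.prod_inv_distrib]
      refine continuous_finsetProd _ fun v _ => ?_
      have hv : Continuous (fun ν' : InfinitePlace K → ℝ => ((ν' v : ℝ) : ℂ) * I) :=
        (Complex.continuous_ofReal.comp (continuous_apply v)).mul continuous_const
      by_cases h : v.IsReal
      · simp only [h, dif_pos]
        exact differentiable_Gammaℝ_inv.continuous.comp (continuous_const.sub hv)
      · simp only [h, dif_neg, not_false_eq_true, hC]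
        exact (differentiable_Gammaℝ_inv.continuous.comp (continuous_const.sub hv)).mul
          (differentiable_Gammaℝ_inv.continuous.comp ((continuous_const.sub hv).add continuous_const))
    have hcpt : IsCompact {ν' : InfinitePlace K → ℝ | ∀ v, ν' v ∈ Icc (-R) R} := by
      have := isCompact_univ_pi (fun _ : InfinitePlace K => isCompact_Icc (a := -R) (b := R))
      convert this using 1
      ext ν'
      simp only [Set.mem_ofPred_eq, Set.mem_pi, Set.mem_univ, true_implies]
    obtain ⟨B, hB⟩ := hcpt.bddAbove_image (hcont.mono (Set.subset_univ _))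
    refine ⟨(|B| + 1)⁻¹, by positivity, fun ν' hν' => ?_⟩
    have h1 : ‖(gS K S ν' (σ : ℂ))⁻¹‖ ≤ B := hB ⟨ν', fun v => abs_le.1 (hν' v), rfl⟩
    have h2 : gS K S ν' (σ : ℂ) ≠ 0 := hne ν' σ (by simpa using hσ)
    have h3 : 0 < ‖gS K S ν' (σ : ℂ)‖ := norm_pos_iff.2 h2
    rw [norm_inv] at h1
    rw [inv_le_comm₀ (by positivity) h3]
    exact h1.trans ((le_abs_self B).trans (by linarith))

end Pool.Agent.H23.GLA
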