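import Pool.Agent.H23.GLA.SUP
import Pool.Agent.H23.GLA.GD

/-!
# Assembly: the Lindelof hypothesis on average over the Hecke characters
-/

set_option autoImplicit false

open NumberField NumberField.InfinitePlace NumberField.Units
  NumberField.Units.dirichletUnitTheorem MeasureTheory Set Filter Complex
open scoped nonZeroDivisors ENNReal

namespace Pool.Agent.H23.GLA

open Pool.Agent.H25.HK Pool.Agent.H23.LB

section NF

variable {K : Type} [Field K] [NumberField K] {f : Ideal (𝓞 K)}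

/-- the character takes a value different from `0` and `1` -/
def NT (χ : HC K f) : Prop := ∃ I : Ideal (𝓞 K), χ.ψ I ≠ 0 ∧ χ.ψ I ≠ 1

/-- the denominator -/
noncomputable def den (χ : HC K f) (s : ℂ) : ℂ :=
  (cw K : ℂ) * ((dN K f : ℝ) : ℂ) ^ s * LB.gS K χ.S χ.ν s

open scoped Classical in
/-- the completed `L`-function -/
noncomputable def Lh (D : Sys K f) (χ : HC K f) : ℂ → ℂ :=
  if h : ∃ Λ : ℂ → ℂ, Differentiable ℂ Λ ∧ ∀ s : ℂ, s ≠ 0 → s ≠ 1 → Lam D χ 0 s = Λ s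
  then h.choose else Lam D χ 0

lemma Lh_eq (D : Sys K f) (χ : HC K f) (s : ℂ) (h0 : s ≠ 0) (h1 : s ≠ 1) :
    Lh D χ s = Lam D χ 0 s := by
  classical
  rw [Lh]
  split_ifs with h
  · exact (h.choose_spec.2 s h0 h1).symm
  · rfl

/-- the `L`-function -/
noncomputable def Lc (D : Sys K f) (χ : HC K f) (s : ℂ) : ℂ := Lh D χ s / den χ s

lemma cw_pos : 0 < cw K := by
  unfold cw
  have : 0 < torsionOrder K := Nat.pos_of_ne_zero (NeZero.ne _)
  positivity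

lemma Nf_pos (hf : f ≠ ⊥) : 1 ≤ Nf K f := by
  unfold Nf
  have : Ideal.absNorm f ≠ 0 := fun h => hf (Ideal.absNorm_eq_zero_iff.mp h)
  exact_mod_cast Nat.one_le_iff_ne_zero.mpr this

lemma disc_ge : 1 ≤ |(discr K : ℝ)| := by
  have h : discr K ≠ 0 := discr_ne_zero K
  have h1 : 1 ≤ |discr K| := Int.one_le_abs h
  exact_mod_cast h1

lemma dN_pos (hf : f ≠ ⊥) : 0 < dN K f := by
  unfold dN
  have h1 := Nf_pos hf
  have h2 := disc_ge (K := K)
  have : 0 < Real.sqrt |(discr K : ℝ)| := Real.sqrt_pos.mpr (by linarith)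
  nlinarith

lemma dN_le (hf : f ≠ ⊥) : dN K f ≤ |(discr K : ℝ)| * Nf K f := by
  unfold dN
  have h1 := Nf_pos hf
  have h2 := disc_ge (K := K)
  have h3 : Real.sqrt |(discr K : ℝ)| ≤ |(discr K : ℝ)| := by
    rw [Real.sqrt_le_left (by linarith)]
    nlinarith
  gcongr

lemma Lc_diff (hGD : T_GD) (hf : f ≠ ⊥) (D : Sys K f) (χ : HC K f) (s : ℂ)
    (h : DifferentiableAt ℂ (Lh D χ) s) : DifferentiableAt ℂ (Lc D χ) s := by
  have hd : (dN K f : ℂ) ≠ 0 := by exact_mod_cast (dN_pos hf).ne'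
  have h1 : Lc D χ = fun s => Lh D χ s * (cw K : ℂ)⁻¹ * ((dN K f : ℝ) : ℂ) ^ (-s) *
      (LB.gS K χ.S χ.ν s)⁻¹ := by
    funext s
    rw [Lc, den, Complex.cpow_neg]
    field_simp
  rw [h1]
  have h2 := (hGD K χ.S χ.ν).1 s
  have h3 : DifferentiableAt ℂ (fun s : ℂ => ((dN K f : ℝ) : ℂ) ^ (-s)) s := by
    apply DifferentiableAt.const_cpow differentiableAt_id.neg
    left; exact hd
  exact ((h.mul_const _).mul h3).mul h2

lemma den_ne (hGD : T_GD) (hf : f ≠ ⊥) (χ : HC K f) (s : ℂ) (hs : 0 < s.re) :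
    den χ s ≠ 0 := by
  have hd : (dN K f : ℂ) ≠ 0 := by exact_mod_cast (dN_pos hf).ne'
  have h1 : (cw K : ℂ) ≠ 0 := by exact_mod_cast (cw_pos (K := K)).ne'
  unfold den
  refine mul_ne_zero (mul_ne_zero h1 ?_) ((hGD K χ.S χ.ν).2.1 s hs)
  rw [Ne, Complex.cpow_eq_zero_iff]
  tauto

lemma Lc_series (hGD : T_GD) (hUZ : T_UZ) (hf : f ≠ ⊥) (D : Sys K f) (χ : HC K f) (s : ℂ)
    (hs : 1 < s.re) : Lc D χ s = χ.series s := by
  have h0 : s ≠ 0 := by
    rintro rfl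
    norm_num at hs
  have h1 : s ≠ 1 := by
    rintro rfl
    norm_num at hs
  rw [Lc, Lh_eq D χ s h0 h1, hUZ K f hf D χ 0 (by simp [Real.pi_pos]) s hs]
  have h2 := den_ne hGD hf χ s (by linarith)
  have h3 : cexp (-(((0 : ℝ) : ℂ) * (Module.finrank ℚ K * s) / 2) * I) = 1 := by
    simp
  rw [h3, mul_one]
  rw [div_eq_iff h2, den]
  ring

lemma Lh_diffAt (hLA : T_LA) (hf : f ≠ ⊥) (D : Sys K f) (χ : HC K f) (s : ℂ) (h0 : s ≠ 0)
    (h1 : s ≠ 1) : DifferentiableAt ℂ (Lh D χ) s := by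
  have h2 := (hLA K f hf D χ).1 s h0 h1
  apply h2.congr_of_eventuallyEq
  have h3 : ∀ᶠ z in nhds s, z ≠ 0 ∧ z ≠ 1 :=
    (isOpen_ne.eventually_mem h0).and (isOpen_ne.eventually_mem h1)
  filter_upwards [h3] with z hz
  exact Lh_eq D χ z hz.1 hz.2

lemma Lh_diff (hLA : T_LA) (hf : f ≠ ⊥) (D : Sys K f) (χ : HC K f) (h : NT χ) :
    Differentiable ℂ (Lh D χ) := by
  classical
  have h2 := (hLA K f hf D χ).2 h
  rw [Lh, dif_pos h2]
  exact h2.choose_spec.1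

end NF

/-- the mean square of the maximum over finite subsets of the family -/
theorem ms (hGD : T_GD) (hLA : T_LA) {K : Type} [Field K] [NumberField K] {f : Ideal (𝓞 K)}
    (hf : f ≠ ⊥) (D : Sys K f) (Y : Finset (HC K f)) (A A0 C0 C κ ε r T H : ℝ) (hA : A ≤ A0)
    (hA0 : 0 ≤ A0) (hC0 : C0 ≤ C) (hC : 0 ≤ C) (hκ : 0 < κ) (hκ1 : κ ≤ 1) (hκε : 2 * κ ≤ ε)
    (hr : r = κ / 8) (hT : 1 ≤ T) (hH : 0 ≤ H)
    (h : ∀ s : ℂ, |s.re - 1 / 2| ≤ r → ∑ χ ∈ Y, ‖Lam D χ 0 s /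
      ((cw K : ℂ) * ((dN K f : ℝ) : ℂ) ^ s * LB.gS K χ.S χ.ν s)‖ ^ 2 ≤
        C0 * (1 + |s.im|) ^ A * dN K f ^ (2 * κ) * H)
    (t : HC K f → ℝ) (ht : ∀ χ, |t χ| ≤ T) :
    ∑ χ ∈ Y, ‖Lc D χ (1 / 2 + t χ * I)‖ ^ 2 ≤
      r⁻¹ ^ 2 * 9 * (C * 4 ^ A0) * T ^ (A0 + 2) *
        (|(discr K : ℝ)| * Ideal.absNorm f) ^ ε * H := by
  set q : ℝ := |(discr K : ℝ)| * Ideal.absNorm f with hq
  have hq1 : 1 ≤ q := by
    have h1 := Nf_pos hf
    have h2 := disc_ge (K := K)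
    unfold Nf at h1
    nlinarith
  have hr0 : 0 < r := by rw [hr]; positivity
  have hr1 : r ≤ 1 / 8 := by
    rw [hr]
    linarith
  have hstrip : ∀ s : ℂ, |s.re - 1 / 2| ≤ r → s ≠ 0 ∧ s ≠ 1 := by
    intro s hs
    rw [abs_le] at hs
    constructor
    · rintro rfl
      norm_num at hs
      linarith
    · rintro rfl
      norm_num at hs
      linarith
  have h1 := sup_le Y (Lc D) r hr0 (by linarith) T hT t ht
    (C * (4 * T) ^ A0 * q ^ ε * H)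
    (fun χ _ s hs => Lc_diff hGD hf D χ s
      (Lh_diffAt hLA hf D χ s (hstrip s hs).1 (hstrip s hs).2)) (by
      intro s hs him
      have h2 := h s hs
      have h3 : ∑ χ ∈ Y, ‖Lc D χ s‖ ^ 2 = ∑ χ ∈ Y, ‖Lam D χ 0 s /
          ((cw K : ℂ) * ((dN K f : ℝ) : ℂ) ^ s * LB.gS K χ.S χ.ν s)‖ ^ 2 := by
        apply Finset.sum_congr rfl
        intro χ _
        rw [Lc, Lh_eq D χ s (hstrip s hs).1 (hstrip s hs).2, den]
      rw [h3]
      refine h2.trans ?_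
      have h4 : (1 + |s.im|) ^ A ≤ (4 * T) ^ A0 := by
        calc (1 + |s.im|) ^ A ≤ (1 + |s.im|) ^ A0 :=
              Real.rpow_le_rpow_of_exponent_le (by linarith [abs_nonneg s.im]) hA
          _ ≤ (4 * T) ^ A0 := by
              apply Real.rpow_le_rpow (by positivity) _ hA0
              linarith
      have h5 : dN K f ^ (2 * κ) ≤ q ^ ε := by
        have h6 : dN K f ≤ q := dN_le hf
        calc dN K f ^ (2 * κ) ≤ q ^ (2 * κ) :=
              Real.rpow_le_rpow (dN_pos hf).le h6 (by positivity)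
          _ ≤ q ^ ε := Real.rpow_le_rpow_of_exponent_le hq1 hκε
      have h7 : 0 ≤ dN K f ^ (2 * κ) := Real.rpow_nonneg (dN_pos hf).le _
      calc C0 * (1 + |s.im|) ^ A * dN K f ^ (2 * κ) * H
          ≤ C * (1 + |s.im|) ^ A * dN K f ^ (2 * κ) * H := by gcongr
        _ ≤ _ := by gcongr)
  refine h1.trans (le_of_eq ?_)
  rw [Real.mul_rpow (by norm_num) (by linarith), Real.rpow_add (by linarith)]
  have h8 : T ^ (2 : ℝ) = T ^ 2 := by
    exact_mod_cast Real.rpow_natCast T 2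
  rw [h8]
  ring

end Pool.Agent.H23.GLA
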