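import Pool.Agent.H23.GLA.ASM

/-!
# Assembly: the main theorem
-/

set_option autoImplicit false

open NumberField NumberField.InfinitePlace NumberField.Units
  NumberField.Units.dirichletUnitTheorem MeasureTheory Set Filter Complex
open scoped nonZeroDivisors ENNReal

namespace Pool.Agent.H23.GLA

open Pool.Agent.H25.HK Pool.Agent.H23.LB

/-- the main theorem, for one field and one modulus, from the mean square in the strip -/
theorem main (hGD : T_GD) (hUZ : T_UZ) (hLA : T_LA) (hSY : T_SY) (hFN : T_FN) (hCH : T_CH)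
    (hMQ : T_MQ) (m : ℕ) (hm : 1 ≤ m) (R : ℝ) (hR : 0 < R) :
    ∃ A c : ℝ, 0 < c ∧ ∀ ε : ℝ, 0 < ε → ∃ B : ℝ, ∀ (K : Type) [Field K] [NumberField K],
      Module.finrank ℚ K = m → ∀ f : Ideal (𝓞 K), f ≠ ⊥ →
      (fam K f R).Finite ∧
      c * (classNumber K * regulator K * Phi K f) ≤ (fam K f R).ncard ∧
      ∃ L : HC K f → ℂ → ℂ,
        (∀ χ : HC K f, (∀ s : ℂ, 1 < s.re → L χ s = χ.series s) ∧
          (∀ s : ℂ, s ≠ 0 → s ≠ 1 → DifferentiableAt ℂ (L χ) s) ∧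
          ((∃ I : Ideal (𝓞 K), χ.ψ I ≠ 0 ∧ χ.ψ I ≠ 1) → Differentiable ℂ (L χ))) ∧
        ∀ T : ℝ, 1 ≤ T →
          (∀ t : HC K f → ℝ, (∀ χ, |t χ| ≤ T) →
            ∑ᶠ χ ∈ fam K f R, ‖L χ (1 / 2 + t χ * I)‖ ^ 2 ≤
              B * T ^ A * (|(discr K : ℝ)| * Ideal.absNorm f) ^ ε *
                (classNumber K * regulator K * Phi K f)) ∧
          ∀ δ : ℝ, 0 < δ →
            ({χ ∈ fam K f R | ∃ t : ℝ, |t| ≤ T ∧
              (T * (|(discr K : ℝ)| * Ideal.absNorm f)) ^ δ < ‖L χ (1 / 2 + t * I)‖}.ncard : ℝ) ≤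
              B * T ^ A * (|(discr K : ℝ)| * Ideal.absNorm f) ^ (ε - 2 * δ) *
                (fam K f R).ncard := by
  classical
  obtain ⟨A, hA⟩ := hMQ m hm R
  obtain ⟨c, hc, hcK⟩ := hCH m R hR
  set A0 : ℝ := max A 0 with hA0
  have hA00 : 0 ≤ A0 := le_max_right _ _
  refine ⟨A0 + 2, c, hc, ?_⟩
  intro ε hε
  set κ : ℝ := min 1 (ε / 2) with hκ
  have hκ0 : 0 < κ := lt_min one_pos (by linarith)
  have hκ1 : κ ≤ 1 := min_le_left _ _
  have hκε : 2 * κ ≤ ε := by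
    have := min_le_right 1 (ε / 2)
    linarith
  obtain ⟨C0, hC0⟩ := hA κ hκ0 hκ1
  set C : ℝ := max C0 0 with hC
  have hCnn : 0 ≤ C := le_max_right _ _
  set r : ℝ := κ / 8 with hr
  have hr0 : 0 < r := by positivity
  set B0 : ℝ := r⁻¹ ^ 2 * 9 * (C * 4 ^ A0) with hB0
  have hB00 : 0 ≤ B0 := by positivity
  refine ⟨max B0 (B0 / c), ?_⟩
  intro K _ _ hK f hf
  obtain ⟨D⟩ := hSY K f hf
  have hfin := hFN K f R hf
  have hreg : 0 < regulator K := regulator_pos K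
  have hh : (0 : ℝ) < classNumber K := by
    exact_mod_cast classNumber_pos K
  set H : ℝ := classNumber K * regulator K * Phi K f with hH
  have hH0 : 0 ≤ H := by positivity
  have hcard : c * H ≤ (fam K f R).ncard := by
    obtain ⟨Y, hY1, hY2⟩ := hcK K hK f hf
    refine hY2.trans ?_
    have h1 : (Y : Set (HC K f)).ncard ≤ (fam K f R).ncard :=
      Set.ncard_le_ncard (fun χ hχ => hY1 χ hχ) hfin
    rw [Set.ncard_coe_finset] at h1
    exact_mod_cast h1
  refine ⟨hfin, hcard, Lc D, ?_, ?_⟩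
  · intro χ
    refine ⟨fun s hs => Lc_series hGD hUZ hf D χ s hs, fun s h0 h1 =>
      Lc_diff hGD hf D χ s (Lh_diffAt hLA hf D χ s h0 h1), fun h s =>
      Lc_diff hGD hf D χ s (Lh_diff hLA hf D χ h s)⟩
  intro T hT
  set q : ℝ := |(discr K : ℝ)| * Ideal.absNorm f with hq
  have hq1 : 1 ≤ q := by
    have h1 := Nf_pos hf
    have h2 := disc_ge (K := K)
    unfold Nf at h1
    nlinarith
  -- the mean square for finite subsets
  have hmain : ∀ Y : Finset (HC K f), (∀ χ ∈ Y, χ ∈ fam K f R) → ∀ t : HC K f → ℝ,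
      (∀ χ, |t χ| ≤ T) → ∑ χ ∈ Y, ‖Lc D χ (1 / 2 + t χ * I)‖ ^ 2 ≤
        B0 * T ^ (A0 + 2) * q ^ ε * H := by
    intro Y hY t ht
    exact ms hGD hLA hf D Y A A0 C0 C κ ε r T H (le_max_left _ _) hA00 (le_max_left _ _) hCnn hκ0
      hκ1 hκε rfl hT hH0 (fun s hs => hC0 K hK f hf D Y hY s hs) t ht
  refine ⟨?_, ?_⟩
  · intro t ht
    rw [finsum_mem_eq_finite_toFinset_sum _ hfin]
    have h1 := hmain hfin.toFinset (fun χ hχ => (Set.Finite.mem_toFinset hfin).mp hχ) t ht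
    refine h1.trans ?_
    gcongr
    exact le_max_left _ _
  · intro δ hδ
    set E : Set (HC K f) := {χ ∈ fam K f R | ∃ t : ℝ, |t| ≤ T ∧
      (T * q) ^ δ < ‖Lc D χ (1 / 2 + t * I)‖} with hE
    have hEfin : E.Finite := hfin.subset (fun χ hχ => hχ.1)
    let t : HC K f → ℝ := fun χ => if h : ∃ t : ℝ, |t| ≤ T ∧
      (T * q) ^ δ < ‖Lc D χ (1 / 2 + t * I)‖ then h.choose else 0
    have ht : ∀ χ, |t χ| ≤ T := by
      intro χ
      simp only [t]
      split_ifs with h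
      · exact h.choose_spec.1
      · simp
        linarith
    have h1 := hmain hEfin.toFinset (fun χ hχ => ((Set.Finite.mem_toFinset hEfin).mp hχ).1) t ht
    have h2 : (E.ncard : ℝ) * (T * q) ^ (2 * δ) ≤
        ∑ χ ∈ hEfin.toFinset, ‖Lc D χ (1 / 2 + t χ * I)‖ ^ 2 := by
      rw [Set.ncard_eq_toFinset_card E hEfin, ← nsmul_eq_mul]
      apply Finset.card_nsmul_le_sum
      intro χ hχ
      have h3 := ((Set.Finite.mem_toFinset hEfin).mp hχ).2
      have h4 : (T * q) ^ δ < ‖Lc D χ (1 / 2 + t χ * I)‖ := by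
        simp only [t]
        rw [dif_pos h3]
        exact h3.choose_spec.2
      have h5 : (T * q) ^ (2 * δ) = ((T * q) ^ δ) ^ 2 := by
        rw [mul_comm 2 δ, Real.rpow_mul (by positivity)]
        exact_mod_cast Real.rpow_natCast _ 2
      rw [h5]
      have h6 : 0 ≤ (T * q) ^ δ := by positivity
      gcongr
    have h3 : (E.ncard : ℝ) * q ^ (2 * δ) ≤ B0 * T ^ (A0 + 2) * q ^ ε * H := by
      refine le_trans ?_ (h2.trans h1)
      gcongr
      nlinarith
    have hqδ : 0 < q ^ (2 * δ) := by positivity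
    have h4 : (E.ncard : ℝ) ≤ B0 * T ^ (A0 + 2) * q ^ (ε - 2 * δ) * H := by
      rw [Real.rpow_sub (by linarith)]
      rw [← mul_le_mul_iff_of_pos_right hqδ]
      refine h3.trans (le_of_eq ?_)
      field_simp
    have h5 : H ≤ c⁻¹ * (fam K f R).ncard := by
      rw [le_inv_mul_iff₀ hc]
      exact hcard
    refine h4.trans ?_
    calc B0 * T ^ (A0 + 2) * q ^ (ε - 2 * δ) * H
        ≤ B0 * T ^ (A0 + 2) * q ^ (ε - 2 * δ) * (c⁻¹ * (fam K f R).ncard) := by gcongr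
      _ = B0 / c * T ^ (A0 + 2) * q ^ (ε - 2 * δ) * (fam K f R).ncard := by
          rw [div_eq_mul_inv]
          ring
      _ ≤ _ := by
          gcongr
          exact le_max_right _ _

end Pool.Agent.H23.GLA
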