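import Pool.Agent.H20.HKI.Leaf
import Pool.Agent.H66.HK.ME
import Pool.Agent.H41.HK.GI
import Pool.Agent.H87.HK.CT
import Pool.Agent.H63.HK.DS
import Pool.Agent.H34.LB.BD
import Pool.Agent.H94.GLA.BE
import Pool.Agent.H94.GLA.OR
import Pool.Agent.H94.GLA.PU
import Pool.Agent.H94.GLA.GL
import Pool.Agent.H6.GLA.CF
import Pool.Agent.H26.GLA.CH
import Pool.Agent.H26.GLA.WF
import Pool.Agent.H77.GLA.FN
import Pool.Agent.H77.GLA.SE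
import Pool.Agent.H56.GLA.GZ
import Pool.Agent.H69.LB.LA
import Pool.Agent.H69.LB.SY
import Pool.Agent.H61.GLA.LF
import Pool.Agent.H61.GLA.MS
import Pool.Agent.H33.GLA.PH
import Pool.Agent.H3.GLA.PO
import Pool.Agent.H3.GLA.TZ
import Pool.Agent.H74.GLA.WC
import Pool.Agent.H65.GLA.MV
import Pool.Agent.H65.GLA.RR
import Pool.Agent.H68.GLA.MQ
import Pool.Agent.H14.GLA.FP
import Pool.Agent.H14.GLA.NS
import Pool.Agent.H61.GLA.H1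
import Pool.Agent.H61.GLA.H2
import Pool.Agent.H26.GLA.AZ
import Pool.Agent.H47.GLA.UZ
import Pool.Agent.H23.GLA.A1
import Pool.Agent.H23.GLA.ASM2

/-!
# The chain of the modules
-/

set_option autoImplicit false

open NumberField NumberField.InfinitePlace NumberField.Units Complex

namespace Pool.Agent.H23.GLA

open Pool.Agent.H23.LB Pool.Agent.H20.HKI

theorem c_PU : T_PU := Pool.Agent.H94.GLA.pf_PU

theorem c_CF : LB.T_CF := Pool.Agent.H6.GLA.pf_CF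

theorem c_RR : T_RR := Pool.Agent.H65.GLA.pf_RR

theorem c_OR : T_OR := Pool.Agent.H94.GLA.pf_OR c_PU c_CF c_RR d_ID d_RX

theorem c_BE : T_BE := Pool.Agent.H94.GLA.pf_BE c_OR c_PU

theorem c_PO : T_PO' := Pool.Agent.H3.GLA.pf_PO c_OR c_CF

theorem c_TZ : T_TZ := Pool.Agent.H3.GLA.pf_TZ

theorem c_WF : T_WF := Pool.Agent.H26.GLA.pf_WF c_TZ

theorem c_WC : T_WC := Pool.Agent.H74.GLA.pf_WC b_TH b_YC b_DU

theorem c_GZ : T_GZ := Pool.Agent.H56.GLA.pf_GZ Pool.Agent.H41.HK.ja b_YC c_PU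

theorem c_SY : T_SY := Pool.Agent.H69.LB.pf_SY

theorem c_CT : Pool.Agent.H25.HK.T_CT := Pool.Agent.H87.HK.ct b_TH

theorem c_GI : Pool.Agent.H25.HK.T_GI :=
  Pool.Agent.H41.HK.gi Pool.Agent.H41.HK.ja Pool.Agent.H41.HK.g1 b_YC

theorem c_ME : Pool.Agent.H25.HK.T_ME :=
  Pool.Agent.H66.HK.me Pool.Agent.H41.HK.bi Pool.Agent.H41.HK.un c_GI
    Pool.Agent.H66.HK.fd b_TH Pool.Agent.H63.HK.ds c_CT b_YC b_UI

theorem c_FP : T_FP := Pool.Agent.H14.GLA.pf_FP b_TH b_YC b_UI c_CT b_DU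

theorem c_NS : T_NS := Pool.Agent.H14.GLA.pf_NS Pool.Agent.H3.HK.gm
  (Pool.Agent.H68.RC.pf_LB Pool.Agent.H3.HK.lb) b_DU b_YC

theorem c_H1 : LB.T_H1 := Pool.Agent.H61.GLA.pf_H1 d_SM b_TH b_YC

theorem c_H2 : LB.T_H2 := Pool.Agent.H61.GLA.pf_H2 d_SM b_TH b_YC b_DU

theorem c_MV : T_MV := Pool.Agent.H65.GLA.pf_MV c_NS Pool.Agent.H61.GLA.pf_MS
    Pool.Agent.H61.GLA.pf_LF c_FP

theorem c_A1 : T_A1 := pf_A1 c_FP c_ME

theorem c_AZ : T_AZ := Pool.Agent.H26.GLA.pf_AZ c_WF c_WC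

theorem c_UZ : T_UZ := Pool.Agent.H47.GLA.pf_UZ c_AZ c_GZ c_CF c_PU

/-- the theorem -/
theorem final (m : ℕ) (hm : 1 ≤ m) (R : ℝ) (hR : 0 < R) :
    ∃ A c : ℝ, 0 < c ∧ ∀ ε : ℝ, 0 < ε → ∃ B : ℝ, ∀ (K : Type) [Field K] [NumberField K],
      Module.finrank ℚ K = m → ∀ f : Ideal (𝓞 K), f ≠ ⊥ →
      (fam K f R).Finite ∧
      c * (classNumber K * regulator K * Phi K f) ≤ (fam K f R).ncard ∧
      ∃ L : HC K f → ℂ → ℂ,
        (∀ χ : HC K f, (∀ s : ℂ, 1 < s.re → L χ s = χ.series s) ∧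
          (∀ s : ℂ, s ≠ 0 → s ≠ 1 → DifferentiableAt ℂ (L χ) s) ∧
          ((∃ I : Ideal (𝓞 K), χ.ψ I ≠ 0 ∧ χ.ψ I ≠ 1) → Differentiable ℂ (L χ))) ∧
        ∀ T : ℝ, 1 ≤ T →
          (∀ t : HC K f → ℝ, (∀ χ, |t χ| ≤ T) →
            ∑ᶠ χ ∈ fam K f R, ‖L χ (1 / 2 + t χ * I)‖ ^ 2 ≤
              B * T ^ A * (|(discr K : ℝ)| * Ideal.absNorm f) ^ ε *
                (classNumber K * regulator K * Phi K f)) ∧
          ∀ δ : ℝ, 0 < δ →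
            ({χ ∈ fam K f R | ∃ t : ℝ, |t| ≤ T ∧
              (T * (|(discr K : ℝ)| * Ideal.absNorm f)) ^ δ < ‖L χ (1 / 2 + t * I)‖}.ncard : ℝ) ≤
              B * T ^ A * (|(discr K : ℝ)| * Ideal.absNorm f) ^ (ε - 2 * δ) *
                (fam K f R).ncard := by
  have hBD : T_BD' := Pool.Agent.H34.LB.pf_BD c_AZ c_H1 c_H2 c_MV
  have hPH : T_PH := Pool.Agent.H33.GLA.pf_PH c_UZ c_AZ
  have hMQ : T_MQ := Pool.Agent.H68.GLA.pf_MQ hBD c_A1 c_RR c_FP c_AZ hPH c_BE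
    Pool.Agent.H94.GLA.pf_GL
  have hLA : T_LA := Pool.Agent.H69.LB.pf_LA c_AZ c_PO
  have hFN : T_FN := Pool.Agent.H77.GLA.pf_FN c_BE c_UZ c_AZ Pool.Agent.H77.GLA.pf_SE pf_GD c_SY
  exact main pf_GD c_UZ hLA c_SY hFN Pool.Agent.H26.GLA.pf_CH hMQ m hm R hR

end Pool.Agent.H23.GLA
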