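import Pool.Agent.H23.GLA.AM

/-!
# From a mean square in a strip to a mean square of the maximum
-/

set_option autoImplicit false

open Complex MeasureTheory Set Filter Topology Metric

namespace Pool.Agent.H23.GLA

/-- A mean square in the strip `|Re s - 1/2| ≤ r` bounds the mean square of the values on the
critical line at points which may depend on the function. -/
theorem sup_le {α : Type*} (Y : Finset α) (L : α → ℂ → ℂ) (r : ℝ) (hr : 0 < r) (hr1 : r ≤ 1)
    (T : ℝ) (hT : 1 ≤ T) (t : α → ℝ) (ht : ∀ a, |t a| ≤ T) (V : ℝ)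
    (hL : ∀ a ∈ Y, ∀ s : ℂ, |s.re - 1 / 2| ≤ r → DifferentiableAt ℂ (L a) s)
    (hV : ∀ s : ℂ, |s.re - 1 / 2| ≤ r → |s.im| ≤ 3 * T → ∑ a ∈ Y, ‖L a s‖ ^ 2 ≤ V) :
    ∑ a ∈ Y, ‖L a (1 / 2 + t a * I)‖ ^ 2 ≤ r⁻¹ ^ 2 * (3 * T) ^ 2 * V := by
  have hπ := Real.pi_pos
  set E : Set ℂ := closedBall (1 / 2 : ℂ) (2 * T) ∩ {s : ℂ | |s.re - 1 / 2| ≤ r} with hE
  have hEcl : IsClosed {s : ℂ | |s.re - 1 / 2| ≤ r} := by
    apply isClosed_le _ continuous_const
    exact (Complex.continuous_re.sub continuous_const).abs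
  have hEc : IsCompact E := (isCompact_closedBall _ _).inter_right hEcl
  have hEm : MeasurableSet E := hEc.measurableSet
  have hsub : ∀ a, ball (1 / 2 + t a * I) r ⊆ E := by
    intro a s hs
    rw [mem_ball, dist_eq_norm] at hs
    constructor
    · rw [mem_closedBall, dist_eq_norm]
      have h1 : s - 1 / 2 = (s - (1 / 2 + t a * I)) + t a * I := by ring
      rw [h1]
      refine (norm_add_le _ _).trans ?_
      have h2 : ‖(t a : ℂ) * I‖ = |t a| := by simp
      rw [h2]
      have := ht a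
      linarith
    · have h1 := Complex.abs_re_le_norm (s - (1 / 2 + t a * I))
      have h2 : (s - (1 / 2 + t a * I)).re = s.re - 1 / 2 := by simp
      rw [h2] at h1
      exact h1.trans hs.le
  have hcont : ∀ a ∈ Y, ContinuousOn (fun s => ‖L a s‖ ^ 2) E := fun a ha s hs =>
    ((hL a ha s hs.2).continuousAt.norm.pow 2).continuousWithinAt
  have hint : ∀ a ∈ Y, IntegrableOn (fun s => ‖L a s‖ ^ 2) E := fun a ha =>
    (hcont a ha).integrableOn_compact hEc
  have h1 : ∀ a ∈ Y, Real.pi * r ^ 2 * ‖L a (1 / 2 + t a * I)‖ ^ 2 ≤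
      ∫ s in E, ‖L a s‖ ^ 2 := by
    intro a ha
    have h2 := area_le (f := L a) (c := 1 / 2 + t a * I) hr (by
      intro z hz
      apply hL a ha
      rw [mem_closedBall, dist_eq_norm] at hz
      have h1 := Complex.abs_re_le_norm (z - (1 / 2 + t a * I))
      have h2 : (z - (1 / 2 + t a * I)).re = z.re - 1 / 2 := by simp
      rw [h2] at h1
      exact h1.trans hz)
    refine h2.trans ?_
    apply setIntegral_mono_set (hint a ha)
    · exact Filter.Eventually.of_forall fun s => by positivity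
    · exact (hsub a).eventuallyLE
  have h2 : Real.pi * r ^ 2 * ∑ a ∈ Y, ‖L a (1 / 2 + t a * I)‖ ^ 2 ≤
      ∫ s in E, ∑ a ∈ Y, ‖L a s‖ ^ 2 := by
    rw [Finset.mul_sum, integral_finsetSum _ hint]
    exact Finset.sum_le_sum h1
  have him : ∀ s ∈ E, |s.im| ≤ 3 * T := by
    intro s hs
    have h3 := hs.1
    rw [mem_closedBall, dist_eq_norm] at h3
    have h4 := Complex.abs_im_le_norm (s - 1 / 2)
    have h5 : (s - 1 / 2 : ℂ).im = s.im := by simp
    rw [h5] at h4
    linarith
  have hV0 : 0 ≤ V := by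
    have h3 := hV (1 / 2) (by simp [hr.le]) (by simp; linarith)
    exact le_trans (Finset.sum_nonneg fun a _ => by positivity) h3
  have h3 : ∫ s in E, ∑ a ∈ Y, ‖L a s‖ ^ 2 ≤ Real.pi * (2 * T) ^ 2 * V := by
    have hvol : volume.real E ≤ Real.pi * (2 * T) ^ 2 := by
      have h4 : volume.real E ≤ volume.real (closedBall (1 / 2 : ℂ) (2 * T)) := by
        exact measureReal_mono inter_subset_left measure_closedBall_lt_top.ne
      refine h4.trans (le_of_eq ?_)
      rw [Measure.real, Complex.volume_closedBall, ENNReal.toReal_mul, ENNReal.toReal_pow,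
        ENNReal.toReal_ofReal (by linarith), mul_comm]
      rfl
    calc ∫ s in E, ∑ a ∈ Y, ‖L a s‖ ^ 2 ≤ ∫ s in E, V := by
          apply setIntegral_mono_on _ _ hEm
          · intro s hs
            exact hV s hs.2 (him s hs)
          · exact integrable_finsetSum _ hint
          · exact integrableOn_const (hEc.measure_lt_top.ne)
      _ = volume.real E * V := by rw [setIntegral_const, smul_eq_mul]
      _ ≤ _ := by gcongr
  have h4 : Real.pi * r ^ 2 * ∑ a ∈ Y, ‖L a (1 / 2 + t a * I)‖ ^ 2 ≤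
      Real.pi * r ^ 2 * (r⁻¹ ^ 2 * (3 * T) ^ 2 * V) := by
    refine h2.trans (h3.trans ?_)
    have h5 : Real.pi * r ^ 2 * (r⁻¹ ^ 2 * (3 * T) ^ 2 * V) = Real.pi * (3 * T) ^ 2 * V := by
      field_simp
    rw [h5]
    gcongr
    norm_num
  exact le_of_mul_le_mul_left h4 (by positivity)

end Pool.Agent.H23.GLA
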